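import Pool.Agent.Helper36.Pin.Defs3
import Pool.Agent.Helper16.Pin.RankD

/-!
# Module PQ-K: sizes, and connectivity of ends
-/

namespace Pool.Agent.Helper36.Pin

open Finset Module

variable {V : Type} [Fintype V] [DecidableEq V]

theorem blocks_card_le_of (G : SimpleGraph V) (hC : Comps (core G) (blocks G))
    (h4 : ∀ X ∈ blocks G, 4 ≤ X.card) (hV : 2 ≤ Fintype.card V) :
    (blocks G).card ≤ Fintype.card V := by
  have h1 : rk (core G) + 3 ≤ 2 * (Finset.univ : Finset V).card :=
    rk_inside_le (core G) Finset.univ (by rw [card_univ]; exact hV) (by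
      intro e _
      rw [Finset.mem_sym2_iff]
      intro a _
      exact mem_univ a)
  rw [card_univ] at h1
  have h2 : ∑ X ∈ blocks G, 5 ≤ ∑ X ∈ blocks G, (2 * X.card - 3) := by
    apply Finset.sum_le_sum
    intro X hX
    have := h4 X hX
    omega
  rw [hC.sum, Finset.sum_const, smul_eq_mul] at h2
  omega

theorem isEnd_connected (G : SimpleGraph V) (F : Finset V) (a b : V) (h : IsEnd G F a b) :
    (G.induce (F : Set V)).Connected := by
  have haF : a ∉ F := by
    have : a ∈ nbr G F := by rw [h.nbr_eq]; simp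
    exact (mem_nbr.1 this).1
  have hbF : b ∉ F := by
    have : b ∈ nbr G F := by rw [h.nbr_eq]; simp
    exact (mem_nbr.1 this).1
  have h1 := h.gr.1.2 {a, b} Finset.subset_union_right Finset.card_le_two
  have h2 : (F ∪ {a, b}) \ {a, b} = F := by
    ext x
    simp only [mem_sdiff, mem_union, mem_insert, mem_singleton]
    constructor
    · rintro ⟨h | h, h'⟩
      · exact h
      · exact absurd h h'
    · intro hx
      refine ⟨Or.inl hx, ?_⟩
      rintro (rfl | rfl)
      · exact haF hx
      · exact hbF hx
  rw [h2] at h1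
  have h3 : (G ⊔ SimpleGraph.edge a b).induce (F : Set V) = G.induce (F : Set V) := by
    ext u v
    simp only [SimpleGraph.comap_adj, SimpleGraph.sup_adj, SimpleGraph.edge_adj,
      Function.Embedding.subtype_apply]
    constructor
    · rintro (h | ⟨⟨h, h'⟩ | ⟨h, h'⟩, -⟩)
      · exact h
      · exact absurd (h ▸ u.2) haF
      · exact absurd (h' ▸ v.2) haF
    · exact Or.inl
  rw [h3] at h1
  exact h1

theorem card_gen0 (G : SimpleGraph V) :
    Fintype.card (Gen0 G) = (Fintype.card V + 1).choose 2 + (blocks G).card := by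
  rw [Fintype.card_sum, Sym2.card, Fintype.card_coe]

theorem card_coord (G : SimpleGraph V) :
    Fintype.card (Coord G) = Fintype.card (Gen0 G) +
      ((blocks G).card * (Fintype.card V * 2) + Fintype.card V * 2) := by
  simp only [Fintype.card_sum, Fintype.card_prod, Fintype.card_fin, Fintype.card_coe]

theorem card_line (G : SimpleGraph V) :
    Fintype.card (Line G) = Fintype.card V *
      (Fintype.card (Gen0 G) * Fintype.card (Gen0 G) + (blocks G).card * Fintype.card V) +
        Fintype.card V := by
  simp only [Fintype.card_sum, Fintype.card_prod, Fintype.card_fin, Fintype.card_coe]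

theorem size_bounds_of (G : SimpleGraph V) (hb : (blocks G).card ≤ Fintype.card V) :
    Fintype.card (Coord G) ≤ 4 * (Fintype.card V + 1) ^ 2 ∧
      Fintype.card (Line G) ≤ 2 * (Fintype.card V + 1) ^ 5 := by
  have h0 : 2 * (Fintype.card V + 1).choose 2 = (Fintype.card V + 1) * Fintype.card V := by
    rw [Nat.choose_two_right, Nat.add_sub_cancel]
    exact Nat.mul_div_cancel' (by
      rw [mul_comm]
      exact (Nat.even_mul_succ_self _).two_dvd)
  have h1 := card_gen0 G
  rw [card_line, card_coord]
  generalize Fintype.card (Gen0 G) = g at *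
  generalize (Fintype.card V + 1).choose 2 = c at *
  generalize Fintype.card V = n at *
  generalize (blocks G).card = b at *
  have hg : g ≤ (n + 1) ^ 2 := by
    have : 2 * g ≤ 2 * (n + 1) ^ 2 := by
      rw [h1]
      nlinarith
    omega
  constructor
  · have h2 : b * (n * 2) ≤ n * (n * 2) := Nat.mul_le_mul_right _ hb
    nlinarith
  · have h2 : g * g ≤ (n + 1) ^ 2 * (n + 1) ^ 2 := Nat.mul_le_mul hg hg
    have h3 : b * n ≤ n * n := Nat.mul_le_mul_right _ hb
    have h4 : g * g + b * n ≤ 2 * (n + 1) ^ 4 := by
      have h5 : n * n + (n + 1) ^ 2 * (n + 1) ^ 2 ≤ 2 * (n + 1) ^ 4 := by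
        ring_nf
        nlinarith [sq_nonneg n, Nat.zero_le (n ^ 3), Nat.zero_le (n ^ 4)]
      omega
    calc n * (g * g + b * n) + n ≤ n * (2 * (n + 1) ^ 4) + n := by
          have := Nat.mul_le_mul_left n h4
          omega
      _ ≤ n * (2 * (n + 1) ^ 4) + 2 * (n + 1) ^ 4 := by
          have : n ≤ 2 * (n + 1) ^ 4 := by
            have h6 : n + 1 ≤ (n + 1) ^ 4 := Nat.le_self_pow (by norm_num) _
            omega
          omega
      _ = 2 * (n + 1) ^ 5 := by ring

end Pool.Agent.Helper36.Pin
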